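import Pool.Agent.SYM.FINB

/-!
# The conjectured Strichartz estimates on all compact irreducible symmetric spaces of rank at least two

`M` is a simple compact Lie group or an irreducible symmetric space of compact type `H / K`, of dimension `d` and rank `r ≥ 2`, with
the canonical metric. The scale invariant Strichartz estimate `(S_p)` holds for all `p > 2 + 4 / r`, on every finite time interval.
-/

namespace Pool.Agent.Results.MP_bea16e_an.StrichartzConjecture

open STZ LGK MeasureTheory

/-- `M = H / K` is a space of the question, of dimension `d` and rank `r`: either `K` is trivial and `M = H` is a compact connected Lie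
group with a simple Lie algebra, or `H / K` is an irreducible symmetric space of type I; `D` is the dimension of `H`. -/
def Member {N : ℕ} (H K : Subgroup (SU N)) (D d r : ℕ) : Prop :=
  (K = ⊥ ∧ D = d ∧ ∃ T : Submodule ℝ (Mat N), Group H T d r) ∨
    ∃ (σ : SU N → SU N) (τ : Mat N → Mat N) (A : Submodule ℝ (Mat N)), Space H K σ τ A D d r

theorem result : ∀ (N : ℕ) (H K : Subgroup (SU N)) (D d r : ℕ), Member H K D d r → 2 ≤ r →
    ∀ p : ℝ, 2 + 4 / (r : ℝ) < p → ∀ μ : Measure H, IsProbabilityMeasure μ → μ.IsMulLeftInvariant →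
      ∀ a b : ℝ, a ≤ b → ∃ C : ℝ, StrIneqM H K D d μ p a b C := by
  intro N H K D d r hM h2 p hp μ hμ hi a b hab
  rcases hM with ⟨rfl, rfl, T, hT⟩ | ⟨σ, τ, A, hA⟩
  · obtain ⟨C, hC⟩ := upper4 N H T D r hT h2 p hp μ hμ hi a b hab
    exact ⟨C, fun X hX κ f hf _ u hu => hC X hX κ f hf u hu⟩
  · exact upperM N H K σ τ A D d r hA h2 p hp μ hμ hi a b hab

end Pool.Agent.Results.MP_bea16e_an.StrichartzConjecture
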