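import Pool.Agent.LGR.FINK

/-!
# Failure of the scale invariant Strichartz estimates for small `p`, on all compact irreducible symmetric spaces

`M` is a simple compact Lie group or an irreducible symmetric space of compact type `H / K`, of dimension `d` and rank `r`, with
the canonical metric. The scale invariant Strichartz estimate `(S_p)` fails for all `p` with `2 < p < 2 + 8 / (d + r)`, on every
time interval. So the optimal exponent is at least `2 + 8 / (d + r)`.
-/

namespace Pool.Agent.Results.MP_bea16e_an.StrichartzLower

open STZ LGK MeasureTheory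

/-- `M = H / K` is a space of the question, of dimension `d` and rank `r`: either `K` is trivial and `M = H` is a compact connected Lie
group with a simple Lie algebra, or `H / K` is an irreducible symmetric space of type I; `D` is the dimension of `H`. -/
def Member {N : ℕ} (H K : Subgroup (SU N)) (D d r : ℕ) : Prop :=
  (K = ⊥ ∧ D = d ∧ ∃ T : Submodule ℝ (Mat N), Group H T d r) ∨
    ∃ (σ : SU N → SU N) (τ : Mat N → Mat N) (A : Submodule ℝ (Mat N)), Space H K σ τ A D d r

theorem result : ∀ (N : ℕ) (H K : Subgroup (SU N)) (D d r : ℕ), Member H K D d r →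
    ∀ p : ℝ, 2 < p → p < 2 + 8 / ((d : ℝ) + r) →
    ∀ μ : Measure H, IsProbabilityMeasure μ → μ.IsMulLeftInvariant →
    ∀ a b C : ℝ, a < b → ¬ StrIneqM H K D d μ p a b C := by
  intro N H K D d r hM p hp hp' μ hμ hi a b C hab
  rcases hM with ⟨rfl, rfl, T, hT⟩ | ⟨σ, τ, A, hA⟩
  · intro h
    refine lower N H T D r hT p hp.le hp' μ hμ hi a b C hab ?_
    intro X hX κ f hf u hu
    refine h X hX κ f hf (fun k g x hx => ?_) u hu
    have h1 : x = 1 := Subtype.ext (Subgroup.mem_bot.1 hx)
    rw [h1, mul_one]
  · exact lowerM N H K σ τ A D d r hA p hp hp' μ hμ hi a b C hab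

end Pool.Agent.Results.MP_bea16e_an.StrichartzLower
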