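import Pool.Agent.STZ3.FINK3

/-!
# The optimal Strichartz exponent of the simple compact Lie groups of rank two

`H` is a compact connected Lie group with a simple Lie algebra (a closed connected subgroup of some `SU(N)`), of rank two and of
dimension `d` (so `d = 8`, `10` or `14`, and `H` is `SU(3)`, `PSU(3)`, `Sp(2)`, `SO(5)` or `G₂`), with its canonical metric (the
negative of the Killing form). Its optimal exponent is `p₀ = 2 + 8 / (d + 2)` (`14/5`, `8/3`, `5/2`): the scale invariant Strichartz
estimate `(S_p)` holds for all `p > 2 + 8 / (d + 2)`, and it fails for all `p` with `2 ≤ p < 2 + 8 / (d + 2)`, on every time interval.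
-/

namespace Pool.Agent.Results.MP_bea16e_an.StrichartzOptimalRankTwo

open STZ LGK MeasureTheory

theorem result : ∀ (N : ℕ) (H : Subgroup (SU N)) (T : Submodule ℝ (Mat N)) (d : ℕ), Group H T d 2 →
    (∀ p : ℝ, 2 + 8 / ((d : ℝ) + 2) < p → Str H d p) ∧
    ∀ p : ℝ, 2 ≤ p → p < 2 + 8 / ((d : ℝ) + 2) →
      ∀ μ : Measure H, IsProbabilityMeasure μ → μ.IsMulLeftInvariant →
      ∀ a b C : ℝ, a < b → ¬ StrIneq H d μ p a b C :=
  fun N H T d hH => ⟨LGK3.upper2 N H T d hH, fun p hp hp' μ hμ hi a b C hab =>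
    LGK3.lower2 N H T d hH p hp hp' μ hμ hi a b C hab⟩

end Pool.Agent.Results.MP_bea16e_an.StrichartzOptimalRankTwo
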