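import Pool.Agent.LGR.FINK

/-!
# Scale invariant Strichartz estimates on the simple compact Lie groups of rank at least two

`H` is a compact connected Lie group with a simple Lie algebra (a closed connected subgroup of some `SU(N)`), of dimension `d` and
rank `r ≥ 2`, with its canonical metric (the negative of the Killing form). The scale invariant Strichartz estimate `(S_p)` holds
for all `p > max (2 + 8 / d) (8 / r)`, for all data in the Sobolev space `H^s`, `s = d / 2 - (d + 2) / p`, and every finite
time interval. As `8 / r ≤ 2 + 4 / r` and `2 + 8 / d ≤ 2 + 4 / r`, this contains the conjectured range `p > 2 + 4 / r`; for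
`r ≥ 4` it is the range `p > 2 + 8 / d`.
-/

namespace Pool.Agent.Results.MP_bea16e_an.StrichartzSimple

open STZ LGK

theorem result : ∀ (N : ℕ) (H : Subgroup (SU N)) (T : Submodule ℝ (Mat N)) (d r : ℕ),
    Group H T d r → 2 ≤ r → ∀ p : ℝ, 2 + 8 / (d : ℝ) < p → 8 / (r : ℝ) < p → Str H d p :=
  upper

end Pool.Agent.Results.MP_bea16e_an.StrichartzSimple
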